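import Mathlib
import Pool.Agent.Lib.P5aaf1b.Defs
import Pool.Agent.Lib.P5aaf1b.Main1

set_option autoImplicit false

namespace Pool.Agent.Results.MP_5aaf1b_ag.EveryField

open Pool.Agent.Lib.P5aaf1b

/-- Over every field, every fat points ideal `I` of `P^n`, `n ≥ 2`, satisfies
`I^(rn) ⊆ 𝔪^⌈r/n⌉ I^r` for all `r`; here `⌈r/n⌉ = (r + n - 1) / n`. More precisely this holds for
all `F` vanishing to order at least `r (m_i + n - 1)` at every point with `m_i ≥ 1`. -/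
theorem result :
  (∀ (k : Type) [Field k] (n : ℕ), 2 ≤ n →
    ∀ (s : ℕ) (P : Fin s → Projectivization k (Fin (n + 1) → k)), Function.Injective P →
    ∀ (m : Fin s → ℕ), (∃ i, 1 ≤ m i) →
    ∀ r : ℕ, 1 ≤ r → symb P m (r * n) ≤ irr k n ^ ((r + n - 1) / n) * symb P m 1 ^ r) ∧
  (∀ (k : Type) [Field k] (n : ℕ), 2 ≤ n →
    ∀ (s : ℕ) (P : Fin s → Projectivization k (Fin (n + 1) → k)), Function.Injective P →
    ∀ (m : Fin s → ℕ), (∃ i, 1 ≤ m i) →
    ∀ r : ℕ, 1 ≤ r → ∀ F : MvPolynomial (Fin (n + 1)) k,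
      (∀ i, 1 ≤ m i → F ∈ pointIdeal (P i) ^ (r * (m i + n - 1))) →
      F ∈ irr k n ^ ((r + n - 1) / n) * symb P m 1 ^ r) := by
  have part2 : (∀ (k : Type) [Field k] (n : ℕ), 2 ≤ n →
    ∀ (s : ℕ) (P : Fin s → Projectivization k (Fin (n + 1) → k)), Function.Injective P →
    ∀ (m : Fin s → ℕ), (∃ i, 1 ≤ m i) →
    ∀ r : ℕ, 1 ≤ r → ∀ F : MvPolynomial (Fin (n + 1)) k,
      (∀ i, 1 ≤ m i → F ∈ pointIdeal (P i) ^ (r * (m i + n - 1))) →
      F ∈ irr k n ^ ((r + n - 1) / n) * symb P m 1 ^ r) := by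
    intro k _ n hn s P _ m hm r hr F hmem
    rw [← MvPolynomial.sum_homogeneousComponent F]
    apply Ideal.sum_mem
    intro d _
    rw [symb_eq, irr_eq]
    simp_rw [one_mul]
    apply gap_frac hn (fun i => (P i).rep_nonzero) hm hr
      (MvPolynomial.homogeneousComponent_isHomogeneous d F)
    intro i hi
    have h1 := hmem i hi
    rw [pointIdeal_eq] at h1
    exact Pool.Agent.Lib.Chud.component_mem
      (Pool.Agent.Lib.Chud.isHomogeneous_pow (Pool.Agent.Lib.Chud.isHomogeneous_Iv _) _) h1 d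
  refine ⟨?_, part2⟩
  intro k _ n hn s P hP m hm r hr F hF
  apply part2 k n hn s P hP m hm r hr F
  intro i hi
  rw [symb, Ideal.mem_iInf] at hF
  refine Ideal.pow_le_pow_right ?_ (hF i)
  rw [mul_assoc]
  apply Nat.mul_le_mul_left
  obtain ⟨w, hw⟩ : ∃ w, m i = w + 1 := ⟨m i - 1, by omega⟩
  obtain ⟨b, rfl⟩ : ∃ b, n = b + 2 := ⟨n - 2, by omega⟩
  rw [hw]
  have h2 : (b + 2) * (w + 1) = (b + 1) * w + (w + 1 + (b + 2) - 1) := by
    have : w + 1 + (b + 2) - 1 = w + b + 2 := by omega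
    rw [this]
    ring
  omega

end Pool.Agent.Results.MP_5aaf1b_ag.EveryField
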